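import Mathlib
import Pool.Agent.H.MP_c78a2a_an.A

open MeasureTheory Set Complex Filter Metric
open scoped NNReal ENNReal ContDiff

namespace Pool.Agent.Results.MP_c78a2a_an.No

/-- `N_r(A)`: the least number of sets of diameter at most `r` covering `A` (`∞` if none). -/
noncomputable def coverNum (A : Set ℂ) (r : ℝ) : ℝ≥0∞ :=
  ⨅ (n : ℕ) (_ : ∃ s : Fin n → Set ℂ, (∀ i, ∀ a ∈ s i, ∀ b ∈ s i, dist a b ≤ r) ∧ A ⊆ ⋃ i, s i),
    (n : ℝ≥0∞)

/-- The Assouad dimension of a subset of the Euclidean plane. -/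
noncomputable def dimA (E : Set ℂ) : ℝ≥0∞ :=
  ⨅ (α : ℝ≥0) (_ : ∃ C > 0, ∀ x ∈ E, ∀ r R : ℝ, 0 < r → r < R →
    coverNum (ball x R ∩ E) r ≤ ENNReal.ofReal (C * (R / r) ^ (α : ℝ))), (α : ℝ≥0∞)

/-- `D` is the weak differential of `f`, and both are locally square integrable. -/
def IsW12loc (f : ℂ → ℂ) (D : ℂ → ℂ →L[ℝ] ℂ) : Prop :=
  (∀ K, IsCompact K → MemLp f 2 (volume.restrict K) ∧ MemLp D 2 (volume.restrict K)) ∧
  ∀ φ : ℂ → ℝ, ContDiff ℝ ∞ φ → HasCompactSupport φ → ∀ v,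
    ∫ z, fderiv ℝ φ z v • f z = -∫ z, φ z • D z v

/-- Quasiconformal homeomorphisms of the plane (analytic definition). -/
def IsQC (f : ℂ → ℂ) : Prop :=
  IsHomeomorph f ∧ ∃ D : ℂ → ℂ →L[ℝ] ℂ, IsW12loc f D ∧
    ∃ K : ℝ, 1 ≤ K ∧ ∀ᵐ z, HasFDerivAt f (D z) z ∧ ‖D z‖ ^ 2 ≤ K * (D z).det

open Pool.Agent.H.MP_c78a2a_an

lemma w12 {f : ℂ → ℂ} (hf : LipschitzWith 2 f) : IsW12loc f (fderiv ℝ f) := by
  have hb : ∀ z, ‖fderiv ℝ f z‖ ≤ 2 := fun z => by simpa using norm_fderiv_le_of_lipschitz ℝ hf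
  have hm : AEStronglyMeasurable (fderiv ℝ f) volume := (measurable_fderiv ℝ f).aestronglyMeasurable
  refine ⟨fun K hK => ?_, fun φ h1 h2 v => ?_⟩
  · haveI : IsFiniteMeasure (volume.restrict K) := ⟨by simpa using hK.measure_lt_top⟩
    obtain ⟨C, hC⟩ := hK.exists_bound_of_continuousOn hf.continuous.continuousOn
    exact ⟨MemLp.of_bound hf.continuous.aestronglyMeasurable C
      ((ae_restrict_mem hK.measurableSet).mono hC), MemLp.of_bound hm.restrict 2 (ae_of_all _ hb)⟩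
  obtain ⟨D, hD⟩ := h1.lipschitzWith_of_hasCompactSupport h2 (by simp)
  have c1 : Continuous fun z => fderiv ℝ φ z v := (h1.continuous_fderiv (by simp)).clm_apply
    continuous_const
  have i1 : Integrable fun z => fderiv ℝ φ z v • f z :=
    (c1.smul hf.continuous).integrable_of_hasCompactSupport (h2.fderiv_apply ℝ v).smul_right
  have i2 : Integrable fun z => φ z • fderiv ℝ f z v := by
    refine Integrable.mono' ((h1.continuous.integrable_of_hasCompactSupport h2).norm.mul_const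
      (2 * ‖v‖)) (h1.continuous.aestronglyMeasurable.smul
        (measurable_fderiv_apply_const ℝ f v).aestronglyMeasurable) (ae_of_all _ fun z => ?_)
    rw [norm_smul]
    gcongr
    exact ((fderiv ℝ f z).le_opNorm v).trans (by gcongr; exact hb z)
  have key : ∀ ℓ : ℂ →L[ℝ] ℝ, ℓ (∫ z, fderiv ℝ φ z v • f z) = ℓ (-∫ z, φ z • fderiv ℝ f z v) := by
    intro ℓ
    have := (ℓ.lipschitz.comp hf).integral_lineDeriv_mul_eq (μ := volume) hD h2 v
    rw [map_neg, ← ℓ.integral_comp_comm i1, ← ℓ.integral_comp_comm i2]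
    have e1 : ∫ z, ℓ (φ z • fderiv ℝ f z v) = ∫ z, lineDeriv ℝ (ℓ ∘ f) z v * φ z := by
      refine integral_congr_ae ?_
      filter_upwards [hf.ae_differentiableAt (μ := volume)] with z hz
      rw [(ℓ.hasFDerivAt.comp z hz.hasFDerivAt).hasLineDerivAt v |>.lineDeriv, map_smul]
      simp [mul_comm]
    rw [e1, this, ← integral_neg]
    refine integral_congr_ae (ae_of_all _ fun z => ?_)
    simp only
    rw [(h1.differentiable (by simp) z).lineDeriv_eq_fderiv, map_smul]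
    simp
  exact Complex.ext (key reCLM) (key imCLM)

theorem result : ∃ f : ℂ → ℂ, IsQC f ∧ (∃ L, LipschitzWith L f) ∧
    dimA {z | z.im = 0} ≤ 1 ∧ 1 < dimA (f '' {z | z.im = 0}) := by
  obtain ⟨f, h1, h2, h3⟩ := main
  refine ⟨f, ⟨h1, _, w12 h2.lip, 10, by norm_num, ?_⟩, ⟨_, h2.lip⟩, ?_, ?_⟩
  · filter_upwards [h2.dis] with z ⟨A, a, b⟩
    rw [a.fderiv, det_eq]
    exact ⟨a, b⟩
  · refine iInf₂_le (1 : ℝ≥0) ⟨3, by norm_num, fun x hx r R hr hR => ?_⟩ |>.trans (by simp)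
    refine le_trans (iInf₂_le ⌈2 * R / r⌉₊ ⟨fun i => {z | z.im = 0 ∧
      z.re ∈ Icc (x.re - R + i * r) (x.re - R + i * r + r)}, ?_, ?_⟩) ?_
    rotate_left
    · rintro i a ⟨a1, a2, a3⟩ b ⟨b1, b2, b3⟩
      rw [dist_of_im_eq (a1.trans b1.symm), Real.dist_eq]
      exact abs_le.2 ⟨by linarith, by linarith⟩
    · rintro z ⟨z1, z2⟩
      have z3 := abs_lt.1 ((abs_re_le_norm (z - x)).trans_lt (mem_ball_iff_norm.1 z1))
      rw [sub_re] at z3
      have z4 : 0 ≤ (z.re - (x.re - R)) / r := div_nonneg (by linarith) hr.le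
      have z5 := Nat.floor_le z4
      have z6 := Nat.lt_floor_add_one ((z.re - (x.re - R)) / r)
      refine mem_iUnion.2 ⟨⟨⌊(z.re - (x.re - R)) / r⌋₊, Nat.lt_ceil.2 (z5.trans_lt ?_)⟩, z2, ?_⟩
      · gcongr; linarith
      rw [le_div_iff₀ hr] at z5
      rw [div_lt_iff₀ hr] at z6
      constructor <;> simp only <;> linarith
    · rw [← ENNReal.ofReal_natCast]
      refine ENNReal.ofReal_le_ofReal ?_
      have := Nat.ceil_lt_add_one (show 0 ≤ 2 * R / r by have := hr.trans hR; positivity)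
      have h4 : 1 < R / r := (one_lt_div hr).2 hR
      rw [mul_div_assoc] at *
      simp only [NNReal.coe_one, Real.rpow_one]; linarith
  have η0 : 0 < η := by unfold η; positivity
  have η1 : η < 1 := by unfold η; norm_num
  have lη : 0 < -Real.log η := by linarith [Real.log_neg η0 η1]
  set s := Real.log 1998 / -Real.log η
  have hs : 1 < s := by
    rw [one_lt_div lη, ← Real.log_inv]
    exact Real.log_lt_log (by positivity) (by unfold η; norm_num)
  refine lt_of_lt_of_le (ENNReal.one_lt_ofReal.2 hs) (le_iInf₂ fun α ⟨C, hC, h⟩ => ?_)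
  rw [ENNReal.ofReal_le_iff_le_toReal (by simp), ENNReal.coe_toReal]
  by_contra hα
  rw [not_le, lt_div_iff₀ lη] at hα
  have hq : 1 < 1998 * η ^ (α : ℝ) := by
    rw [← Real.log_pos_iff (by positivity), Real.log_mul (by norm_num) (by positivity),
      Real.log_rpow η0]
    linarith
  obtain ⟨m, hm⟩ := pow_unbounded_of_one_lt (C * 6000000 ^ (α : ℝ)) hq
  obtain ⟨τ, hτ, ι, _, p, hc, hp, hu, hl⟩ := h3 m
  obtain ⟨x⟩ : Nonempty ι := Fintype.card_pos_iff.1 (by rw [hc]; positivity)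
  have ηm : η ^ m ≤ 1 := pow_le_one₀ η0.le η1.le
  have ηp : 0 < η ^ m := by positivity
  have := h (f (p x)) ⟨_, hp x, rfl⟩ (τ * (η ^ m / 2000)) (τ * 3000) (by positivity)
    (by gcongr; linarith)
  have low : ((1998 ^ m : ℕ) : ℝ≥0∞) ≤ coverNum (ball (f (p x)) (τ * 3000) ∩ f '' {z | z.im = 0})
      (τ * (η ^ m / 2000)) := by
    refine le_iInf₂ fun n ⟨t, t1, t2⟩ => ?_
    have : ∀ a, ∃ i, f (p a) ∈ t i := fun a => mem_iUnion.1 (t2 ⟨mem_ball_iff_norm.2
      ((hu a x).trans_lt (by gcongr; norm_num)), _, hp a, rfl⟩)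
    choose g hg using this
    have inj : Function.Injective g := fun a b e => by
      by_contra hab
      have := t1 _ _ (hg a) _ (e ▸ hg b)
      rw [dist_eq_norm] at this
      nlinarith [hl a b hab, mul_pos hτ ηp]
    have := Fintype.card_le_of_injective g inj
    rw [hc, Fintype.card_fin] at this
    exact_mod_cast this
  have fin := low.trans this
  rw [← ENNReal.ofReal_natCast, ENNReal.ofReal_le_ofReal_iff (by positivity),
    show τ * 3000 / (τ * (η ^ m / 2000)) = 6000000 / η ^ m by field_simp; norm_num,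
    Real.div_rpow (by norm_num) ηp.le, ← mul_div_assoc, le_div_iff₀ (by positivity),
    ← Real.rpow_natCast η, ← Real.rpow_mul η0.le, mul_comm (m : ℝ), Real.rpow_mul η0.le,
    Real.rpow_natCast] at fin
  rw [mul_pow] at hm
  push_cast at fin
  linarith

end Pool.Agent.Results.MP_c78a2a_an.No
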